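import Mathlib
import Pool.Agent.MP_d8b1b3_co.H43.Field

/-! Found independently by helper43 and helper46. -/

set_option autoImplicit false

namespace Pool.Agent.Results.MP_d8b1b3_co.BorderedPaley

/-- Let `n = 2 ^ a * (p₁ + 1) ⋯ (p_k + 1)` with odd prime powers `p_i`, where `a ≥ 1` or all
`p_i ≡ 3 mod 4`.  If `2 n + 1` is a prime power there is a Hadamard matrix of order `16 n + 12`,
for even `n`. -/
theorem result (a n : ℕ) (L : List ℕ) (hL : ∀ p ∈ L, IsPrimePow p ∧ Odd p)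
    (ha : 1 ≤ a ∨ ∀ p ∈ L, p % 4 = 3) (hn : n = 2 ^ a * (L.map (· + 1)).prod) (he : Even n)
    (hq : IsPrimePow (2 * n + 1)) :
    ∃ H : Matrix (Fin (16 * n + 12)) (Fin (16 * n + 12)) ℤ,
      (∀ i j, H i j = 1 ∨ H i j = -1) ∧
        H * Matrix.transpose H = ((16 * n + 12 : ℕ) : ℤ) •
          (1 : Matrix (Fin (16 * n + 12)) (Fin (16 * n + 12)) ℤ) := by
  obtain ⟨H, h1, h2⟩ := (hn ▸ Pool.Agent.MP_d8b1b3_co.H43.sh_list a L hL ha :
    Pool.Agent.MP_d8b1b3_co.H43.SH n).had (Nat.even_iff.1 he) hq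
  exact ⟨H, h1, by rwa [Fintype.card_fin] at h2⟩

end Pool.Agent.Results.MP_d8b1b3_co.BorderedPaley
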