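import Mathlib
import Pool.Agent.MP_d8b1b3_co.H60.Key

set_option autoImplicit false

namespace Pool.Agent.Results.MP_d8b1b3_co.DensityOne

/-- The proportion of the integers `1 ≤ m ≤ X` for which there is a Hadamard matrix of order
`8 * m` tends to one. -/
theorem result : Filter.Tendsto (fun X : ℕ =>
    ((Set.ncard {m : ℕ | 1 ≤ m ∧ m ≤ X ∧
      ∃ H : Matrix (Fin (8 * m)) (Fin (8 * m)) ℤ,
        (∀ a b, H a b = 1 ∨ H a b = -1) ∧
          H * Matrix.transpose H = ((8 * m : ℕ) : ℤ) •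
            (1 : Matrix (Fin (8 * m)) (Fin (8 * m)) ℤ)} : ℕ) : ℝ) / X)
    Filter.atTop (nhds 1) := by
  classical
  refine Pool.Agent.MP_d8b1b3_co.H68.Od.density_8.congr fun X =>
    congrArg (fun n : ℕ => (n : ℝ) / X) ?_
  rw [← Set.ncard_coe_finset]
  refine congrArg _ (Set.ext fun m => ?_)
  simp only [Finset.coe_filter, Finset.mem_Ioc, Set.mem_ofPred_eq, Pool.Agent.MP_d8b1b3_co.HadOn,
    Fintype.card_fin]
  exact ⟨fun a => ⟨a.1.1, a.1.2, a.2⟩, fun a => ⟨⟨a.1, a.2.1⟩, a.2.2⟩⟩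

end Pool.Agent.Results.MP_d8b1b3_co.DensityOne
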