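import Mathlib
import Pool.Agent.MP_d8b1b3_co.Boot

set_option autoImplicit false

namespace Pool.Agent.Results.MP_d8b1b3_co.LogStar

/-- There is an absolute constant `C` such that, whenever `j` iterations of the floor of the
binary logarithm take the positive integer `m` to `0`, there is a Hadamard matrix of order
`2 ^ t * m` for every `t ≥ C ^ j`. -/
theorem result : ∃ C : ℕ, ∀ m j t : ℕ, 0 < m → (Nat.log 2)^[j] m = 0 → C ^ j ≤ t →
    ∃ H : Matrix (Fin (2 ^ t * m)) (Fin (2 ^ t * m)) ℤ,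
      (∀ a b, H a b = 1 ∨ H a b = -1) ∧
      H * Matrix.transpose H =
        ((2 ^ t * m : ℕ) : ℤ) • (1 : Matrix (Fin (2 ^ t * m)) (Fin (2 ^ t * m)) ℤ) := by
  obtain ⟨C, hC⟩ := Pool.Agent.MP_d8b1b3_co.logstar
  refine ⟨C, fun m j t hm hj ht => ?_⟩
  obtain ⟨H, h1, h2⟩ := hC m j t hm hj ht
  rw [Fintype.card_fin] at h2
  exact ⟨H, h1, h2⟩

end Pool.Agent.Results.MP_d8b1b3_co.LogStar
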