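import Mathlib
import Pool.Agent.MP_d8b1b3_co.H14.Main

set_option autoImplicit false

namespace Pool.Agent.Results.MP_d8b1b3_co.ManyRows

/-- For every large multiple `n` of `4` there is an `r × n` matrix of signs with pairwise
orthogonal rows, where `r ≥ n - n ^ (49 / 50)`. -/
theorem result : ∃ n0 : ℕ, ∀ n : ℕ, n0 ≤ n → 4 ∣ n →
    ∃ r : ℕ, (n : ℝ) - (n : ℝ) ^ (49 / 50 : ℝ) ≤ (r : ℝ) ∧
      ∃ H : Matrix (Fin r) (Fin n) ℤ, (∀ i j, H i j = 1 ∨ H i j = -1) ∧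
        H * Matrix.transpose H = (n : ℤ) • (1 : Matrix (Fin r) (Fin r) ℤ) :=
  Filter.eventually_atTop.1 Pool.Agent.MP_d8b1b3_co.H14.many_rows

end Pool.Agent.Results.MP_d8b1b3_co.ManyRows
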